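import Pool.Agent.MP_bae362_pr.Mg.Wasserman

set_option autoImplicit false
open MeasureTheory
open scoped NNReal
open Pool.Agent.MP_bae362_pr

namespace Pool.Agent.Results.MP_bae362_pr.Q1Complete

/-- For every random closed set and every likelihood the posterior upper probability over the
selection distributions is `n`-alternating for every `n ≥ 2`. -/
theorem result {Ω E : Type*} [MeasurableSpace Ω] [TopologicalSpace E] [T2Space E]
    [LocallyCompactSpace E] [SecondCountableTopology E] [MeasurableSpace E] [BorelSpace E]
    (μ : Measure Ω) [IsProbabilityMeasure μ] (X : Ω → Set E) (hX : IsRandomClosedSet X)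
    (L : E → ℝ≥0) (hL : Measurable L) (n : ℕ) (hn : 2 ≤ n) :
    IsAlternating n (postUpper (selectionLaws μ X) L) :=
  alternating_of_dominated hX μ hL le_rfl (selection_dominated μ X hL) n (by omega)

end Pool.Agent.Results.MP_bae362_pr.Q1Complete
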