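import Pool.Agent.MP_bae362_pr.Mg.Contam

set_option autoImplicit false
open MeasureTheory
open scoped NNReal
open Pool.Agent.MP_bae362_pr

namespace Pool.Agent.Results.MP_bae362_pr.Q2Complete

/-- In the contamination model the posterior upper probability is `n`-alternating for every
`n ≥ 2`. -/
theorem result {E : Type*} [TopologicalSpace E] [T2Space E]
    [LocallyCompactSpace E] [SecondCountableTopology E] [MeasurableSpace E] [BorelSpace E]
    (ε : ℝ≥0) (_hε0 : 0 < ε) (hε1 : ε < 1) (P : Measure E) [IsProbabilityMeasure P]
    (L : E → ℝ≥0) (hL : Measurable L) (n : ℕ) (hn : 2 ≤ n) :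
    IsAlternating n (postUpper (contamination ε P) L) :=
  haveI := contMeasure_prob ε hε1.le P
  alternating_of_dominated contSet_random (contMeasure ε P) hL
    (selection_subset_contamination ε hε1 P) (contamination_dominated ε P L) n (by omega)

end Pool.Agent.Results.MP_bae362_pr.Q2Complete
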